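import Pool.Agent.W529.ST.Wrap

/-!
# The Sato-Tate law of the coefficients of the Euler factors, for most quadratic twists

`A` is an abelian variety over a number field `F` (over `ℚ` in the problem), `P v` its normalised Euler
factor at a good prime `v`, and `a_i(A)(v)` the coefficient of `T^i`.  The quadratic twist `A_d` of `A`
by `F(√d)/F` has the Euler factor `P v (± T)` at the good primes `v ∤ 2d`, with the sign `+` if and
only if `d` is a square modulo `v`.  So `a_i(A_d)(v) = a_i(A)(v)` for `i` even; the theorem is about the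
odd `i`, for which the Sato-Tate law of `a_i` is symmetric.
-/

set_option autoImplicit false

namespace Pool.Agent.Results.MP_753a9c_nt.DistributionFunctions

open NumberField IsDedekindDomain Filter Topology Polynomial

section
variable {F : Type} [Field F] [NumberField F]

/-- `Q` are the Euler factors of the twist by `d` of a variety with Euler factors `P`: for `v` outside
the finite set `Z` of bad primes and `v ∤ 2d`, `Q v (T)` is `P v (T)` or `P v (-T)`, according to
whether `d` is a square modulo `v` or not. -/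
def IsTwist (Z : Set (HeightOneSpectrum (𝓞 F))) (P : HeightOneSpectrum (𝓞 F) → ℝ[X]) (d : 𝓞 F)
    (Q : HeightOneSpectrum (𝓞 F) → ℝ[X]) : Prop :=
  ∀ v : HeightOneSpectrum (𝓞 F), v ∉ Z → 2 * d ∉ v.asIdeal →
    (IsSquare (Ideal.Quotient.mk v.asIdeal d) → Q v = P v) ∧
    (¬ IsSquare (Ideal.Quotient.mk v.asIdeal d) → Q v = (P v).comp (-X))

open Classical in
/-- Proportion of the primes of `F` of norm at most `N` at which `a v ≤ x`. -/
noncomputable def cdf (a : HeightOneSpectrum (𝓞 F) → ℝ) (N : ℕ) (x : ℝ) : ℝ :=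
  (∑ᶠ v : {v : HeightOneSpectrum (𝓞 F) // Ideal.absNorm v.asIdeal ≤ N},
      if a v.1 ≤ x then 1 else 0) /
    (Nat.card {v : HeightOneSpectrum (𝓞 F) // Ideal.absNorm v.asIdeal ≤ N} : ℝ)

end

open Classical in
/-- **Distribution functions for most twists.**  Let `F` be a number field, `A/F` with Euler factors
`P v` and bad primes `Z`, `T` a finite set of nonzero elements of `𝓞_F` in different classes modulo
squares of `F`, `A_d` (`d ∈ T`) the twist with Euler factors `Q d v`, `i` odd and `k ≥ 1`.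

1. For all large `N`, with at most `32 k³` exceptions `d ∈ T`: for all `x`, the distribution function
of `a_i(A_d)(v)`, `N(v) ≤ N`, at `x` differs by less than `1/k` from the mean of the distribution
functions of `a_i(A)(v)` and `-a_i(A)(v)`.

2. If the distribution functions of `a_i(A)(v)` and `-a_i(A)(v)`, `N(v) ≤ N`, converge uniformly to the
distribution function `G` of a symmetric law for `N → ∞`, then for all large `N`, with at most
`256 k³` exceptions `d ∈ T`, the distribution function of `a_i(A_d)(v)`, `N(v) ≤ N`, differs from `G`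
by less than `1/k` everywhere. -/
theorem result (F : Type) [Field F] [NumberField F] (Z : Set (HeightOneSpectrum (𝓞 F)))
    (hZ : Z.Finite) (P : HeightOneSpectrum (𝓞 F) → ℝ[X])
    (Q : 𝓞 F → HeightOneSpectrum (𝓞 F) → ℝ[X]) (T : Finset (𝓞 F)) (hT : ∀ d ∈ T, d ≠ 0)
    (hT' : ∀ d ∈ T, ∀ e ∈ T, d ≠ e → ¬ IsSquare ((d * e : 𝓞 F) : F))
    (hQ : ∀ d ∈ T, IsTwist Z P d (Q d)) (i : ℕ) (hi : Odd i) (k : ℕ) (hk : 1 ≤ k) :
    (∀ᶠ N : ℕ in atTop, (T.filter fun d => ∃ x : ℝ, 1 / (k : ℝ) ≤
      |cdf (fun v => (Q d v).coeff i) N x -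
        (cdf (fun v => (P v).coeff i) N x + cdf (fun v => -(P v).coeff i) N x) / 2|).card ≤
        32 * k ^ 3) ∧
    ∀ G : ℝ → ℝ, TendstoUniformly (cdf (fun v => (P v).coeff i)) G atTop →
      TendstoUniformly (cdf (fun v => -(P v).coeff i)) G atTop →
      ∀ᶠ N : ℕ in atTop, (T.filter fun d => ∃ x : ℝ, 1 / (k : ℝ) ≤
        |cdf (fun v => (Q d v).coeff i) N x - G x|).card ≤ 256 * k ^ 3 := by
  have hcoef : ∀ p : ℝ[X], (p.comp (-X)).coeff i = -p.coeff i := by
    intro p
    have h1 : p.comp (-X) = p.comp (C (-1) * X) := by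
      congr 1
      rw [C_neg, C_1, neg_one_mul]
    rw [h1, comp_C_mul_X_coeff, hi.neg_one_pow]
    ring
  have hsum : ∀ (N : ℕ) (x : ℝ), Pool.Agent.W529.ST.mean F (fun v =>
      ((if (P v).coeff i ≤ x then (1 : ℝ) else 0) +
        (if -(P v).coeff i ≤ x then (1 : ℝ) else 0)) / 2) N =
      (cdf (fun v => (P v).coeff i) N x + cdf (fun v => -(P v).coeff i) N x) / 2 := by
    intro N x
    have h1 : ∀ a : HeightOneSpectrum (𝓞 F) → ℝ, cdf a N x =
        Pool.Agent.W529.ST.mean F (fun v => if a v ≤ x then 1 else 0) N := fun a => rfl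
    obtain ⟨t, _, _, hmean⟩ := Pool.Agent.W529.ST.mean_def (F := F) (fun _ => 0) N
    rw [h1, h1]
    simp only [hmean]
    rw [← Finset.sum_div, Finset.sum_add_distrib]
    ring
  have main : ∀ k : ℕ, 1 ≤ k → ∀ᶠ N : ℕ in atTop, (T.filter fun d => ∃ x : ℝ, 1 / (k : ℝ) ≤
      |cdf (fun v => (Q d v).coeff i) N x -
        (cdf (fun v => (P v).coeff i) N x + cdf (fun v => -(P v).coeff i) N x) / 2|).card ≤
        32 * k ^ 3 := by
    intro k hk
    filter_upwards [Pool.Agent.W529.ST.count_levels T hT hT' hZ k hk] with N hN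
    have h2 := hN (fun v => (P v).coeff i) (fun d v => (Q d v).coeff i) (by
      intro d hd v hv h2d
      obtain ⟨h3, h4⟩ := hQ d hd v hv h2d
      rcases Pool.Agent.W529.ST.ch_dichotomy d h2d with ⟨h5, h6⟩ | ⟨h5, h6⟩
      · rw [h6, h3 h5, one_mul]
      · rw [h6, h4 h5, hcoef, neg_one_mul])
    refine (Finset.card_le_card ?_).trans h2
    intro d hd
    obtain ⟨hdT, x, hge⟩ := Finset.mem_filter.1 hd
    refine Finset.mem_filter.2 ⟨hdT, x, ?_⟩
    rw [hsum]
    exact hge
  refine ⟨main k hk, fun G h1 h2 => ?_⟩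
  have hkR : (0 : ℝ) < k := by exact_mod_cast hk
  rw [Metric.tendstoUniformly_iff] at h1 h2
  filter_upwards [main (2 * k) (by omega), h1 (1 / (2 * k)) (by positivity),
    h2 (1 / (2 * k)) (by positivity)] with N h3 h4 h5
  have e1 : 32 * (2 * k) ^ 3 = 256 * k ^ 3 := by ring
  rw [e1] at h3
  refine (Finset.card_le_card ?_).trans h3
  intro d hd
  obtain ⟨hdT, x, hge⟩ := Finset.mem_filter.1 hd
  refine Finset.mem_filter.2 ⟨hdT, x, ?_⟩
  have e2 := h4 x
  have e3 := h5 x
  rw [Real.dist_eq] at e2 e3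
  have e2 := abs_lt.1 e2
  have e3 := abs_lt.1 e3
  have e4 : (1 : ℝ) / ((2 * k : ℕ) : ℝ) = 1 / k - 1 / (2 * k) := by
    push_cast
    field_simp
    norm_num
  rw [e4]
  rcases le_abs.1 hge with h6 | h6
  · refine le_trans ?_ (le_abs_self _)
    linarith [e2.1, e2.2, e3.1, e3.2]
  · refine le_trans ?_ (neg_le_abs _)
    linarith [e2.1, e2.2, e3.1, e3.2]

end Pool.Agent.Results.MP_753a9c_nt.DistributionFunctions
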